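import Pool.Agent.Lib.MP_8646f6_al.Group

namespace Pool.Agent.Lib.MP_8646f6_al.Variants.UnbranchedNotCAT0

open Pool.Agent.Lib.MP_8646f6_al Pool.Agent.Lib.MP_8646f6_al.Defs

universe u

/-- The mapping torus of the automorphism `a ↦ a, b ↦ b, s ↦ s a b a⁻¹ b⁻¹` of the free group of
rank three admits a coarse median (so it is unbranched) and acts geometrically on no CAT(0)
space. -/
theorem result : ∃ Φ : MulAut (FreeGroup (Fin 3)),
    Φ (FreeGroup.of 0) = FreeGroup.of 0 ∧ Φ (FreeGroup.of 1) = FreeGroup.of 1 ∧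
    Φ (FreeGroup.of 2) = FreeGroup.of 2 *
      (FreeGroup.of 0 * FreeGroup.of 1 * (FreeGroup.of 0)⁻¹ * (FreeGroup.of 1)⁻¹) ∧
    IsCoarseMedianGroup (MappingTorus Φ) ∧
    ∀ (X : Type u) [MetricSpace X] [Nonempty X] [MulAction (MappingTorus Φ) X],
      IsCAT0 X → ¬ IsGeometricAction (MappingTorus Φ) X :=
  ⟨twist, twist_0, twist_1, twist_2, coarseMedian twist_0 twist_1 twist_2,
    fun X _ _ _ hX => not_geometric twist_0 twist_1 twist_2 X hX⟩

end Pool.Agent.Lib.MP_8646f6_al.Variants.UnbranchedNotCAT0
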